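import Pool.Agent.Lib.MP_3d374d_co.Bridge

set_option autoImplicit false

namespace Pool.Agent.Results.MP_3d374d_co.BMTDensity

open Pool.Agent.Lib.MP_3d374d_co Filter

/-- The seven variables. -/
inductive Var : Type
  | a | b | c | X | Y | Z | T

/-- The pattern `p = abXbcYcaZbaTac`. -/
def pattern : List Var :=
  [.a, .b, .X, .b, .c, .Y, .c, .a, .Z, .b, .a, .T, .a, .c]

/-- The word `w` over the four letter alphabet `Fin 4` encounters the pattern `p`: there is an
assignment `h` of nonempty words to the variables such that `h(p)` is a factor of `w`. -/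
def Encounters (w : List (Fin 4)) (p : List Var) : Prop :=
  ∃ h : Var → List (Fin 4), (∀ v, h v ≠ []) ∧ p.flatMap h <:+: w

/-- The words of length `k` over `Fin 4` that avoid `p`. -/
def F (k : ℕ) : Set (List (Fin 4)) := {w | w.length = k ∧ ¬ Encounters w pattern}

/-- The minimum of the number of occurrences of the letter `3` over `F k`. -/
noncomputable def minCount (k : ℕ) : ℕ := sInf ((fun w : List (Fin 4) => w.count 3) '' F k)

/-- The minimal density of the letter `3`. -/
noncomputable def rho : ℝ := liminf (fun k : ℕ => (minCount k : ℝ) / (k : ℝ)) atTop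

theorem av_of {w : List (Fin 4)} (h : ¬ Encounters w pattern) : Av w := by
  intro A B C hA hB hC hch
  apply h
  obtain ⟨u1, g1, z1, rfl, u2, g2, z2, rfl, u3, g3, z3, rfl, u4, g4, z4, rfl, u5, t, rfl⟩ := hch
  refine ⟨fun v => match v with
    | .a => A
    | .b => B
    | .c => C
    | .X => g1 :: u2
    | .Y => g2 :: u3
    | .Z => g3 :: u4
    | .T => g4 :: u5, ?_, u1, t, ?_⟩
  · intro v
    cases v
    · exact hA
    · exact hB
    · exact hC
    all_goals simp
  · simp [pattern]

theorem F_nonempty (k : ℕ) : (F k).Nonempty := by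
  refine ⟨(List.range k).map bw, by simp, ?_⟩
  rintro ⟨h, hne, s, t, hst⟩
  simp only [pattern, List.flatMap_cons, List.flatMap_nil, List.append_nil] at hst
  exact bw_avoids (hne .a) (hne .b) (hne .c) hst

theorem encounters_map {w : List (Fin 4)} (σ : Fin 4 → Fin 4) (hσ : ∀ x, σ (σ x) = x)
    (h : Encounters (w.map σ) pattern) : Encounters w pattern := by
  obtain ⟨f, hne, s, t, hst⟩ := h
  refine ⟨fun v => (f v).map σ, ?_, s.map σ, t.map σ, ?_⟩
  · intro v hv
    exact hne v (List.map_eq_nil_iff.1 hv)
  · have h1 := congrArg (List.map σ) hst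
    rw [List.map_map] at h1
    have h2 : σ ∘ σ = id := funext hσ
    rw [h2, List.map_id] at h1
    rw [← h1]
    simp only [List.map_append, List.map_flatMap]

theorem minCount_le (k : ℕ) : 4 * minCount k ≤ k := by
  obtain ⟨w, hw, hw'⟩ := F_nonempty k
  have hx : ∀ x : Fin 4, minCount k ≤ w.count x := by
    intro x
    apply Nat.sInf_le
    refine ⟨w.map (Equiv.swap x 3), ⟨by simpa using hw, ?_⟩, ?_⟩
    · intro h
      exact hw' (encounters_map _ (fun y => by simp) h)
    · simp only
      have := List.count_map_of_injective w (Equiv.swap x 3) (Equiv.swap x 3).injective x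
      rw [Equiv.swap_apply_left] at this
      exact this
  have htot := cnt_total (ext w) 0 w.length
  rw [cnt_ext, cnt_ext, cnt_ext, cnt_ext, hw] at htot
  have h0 := hx 0
  have h1 := hx 1
  have h2 := hx 2
  have h3 := hx 3
  omega

theorem le_minCount (ε : ℝ) (hε : 0 < ε) : ∃ C : ℝ, ∀ k : ℕ,
    (1 / 4 - ε) * k - C ≤ minCount k := by
  obtain ⟨C, hC⟩ := lower ε hε
  refine ⟨C, ?_⟩
  intro k
  obtain ⟨w, ⟨hw, hw'⟩, hw''⟩ := Nat.sInf_mem ((F_nonempty k).image (fun w => w.count 3))
  have := hC w (av_of hw')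
  rw [hw] at this
  simp only at hw''
  unfold minCount
  rw [← hw'']
  exact this

theorem tendsto_minCount :
    Tendsto (fun k : ℕ => (minCount k : ℝ) / (k : ℝ)) atTop (nhds (1 / 4)) := by
  rw [Metric.tendsto_atTop]
  intro ε hε
  obtain ⟨C, hC⟩ := le_minCount (ε / 2) (by linarith)
  obtain ⟨N, hN⟩ := exists_nat_gt (2 * |C| / ε)
  refine ⟨N + 1, ?_⟩
  intro k hk
  have hk0 : (0 : ℝ) < k := by
    have : 0 < k := by omega
    exact_mod_cast this
  have h1 : (minCount k : ℝ) / k ≤ 1 / 4 := by
    rw [div_le_div_iff₀ hk0 (by norm_num)]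
    have : ((4 * minCount k : ℕ) : ℝ) ≤ k := by exact_mod_cast minCount_le k
    push_cast at this
    linarith
  have hkN : (N : ℝ) < k := by
    have : N < k := by omega
    exact_mod_cast this
  have h2 : 1 / 4 - ε < (minCount k : ℝ) / k := by
    rw [lt_div_iff₀ hk0]
    have h3 := hC k
    have h4 : C < ε / 2 * k := by
      have h5 : 2 * |C| / ε < k := hN.trans hkN
      rw [div_lt_iff₀ hε] at h5
      have := le_abs_self C
      linarith
    linarith
  rw [Real.dist_eq, abs_lt]
  constructor <;> linarith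

/-- **The minimal letter density of the Baker-McNulty-Taylor pattern is `1 / 4`.** -/
theorem result :
    (∀ k : ℕ, (F k).Nonempty) ∧
    Tendsto (fun k : ℕ => (minCount k : ℝ) / (k : ℝ)) atTop (nhds (1 / 4)) ∧
    rho = 1 / 4 :=
  ⟨F_nonempty, tendsto_minCount, tendsto_minCount.liminf_eq⟩

end Pool.Agent.Results.MP_3d374d_co.BMTDensity
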